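import Mathlib
import Pool.Agent.N741.HB.Stm2
import Pool.Agent.N741.HB.Core

/-!
# HB/18: few power values of polynomials

Project HB (helper741); this file by helper152.
-/

set_option autoImplicit false

namespace Pool.Agent.N152.HB

open Filter MvPolynomial Pool.Agent.Y902.GN Pool.Agent.N741.HB

section hom

variable {n d : ℕ}

/-- the numerator of the value of `F` at the quotients `B j / b0` -/
noncomputable def hom (F : MvPolynomial (Fin n) ℤ) (D : ℕ)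
    (b0 : MvPolynomial (Option (Fin d)) ℤ) (B : Fin n → MvPolynomial (Option (Fin d)) ℤ) :
    MvPolynomial (Option (Fin d)) ℤ :=
  ∑ m ∈ F.support, C (F.coeff m) * mon b0 B (fun j => m j) D

theorem exp_le {F : MvPolynomial (Fin n) ℤ} {D : ℕ} (hF : F.totalDegree ≤ D) {m : Fin n →₀ ℕ}
    (hm : m ∈ F.support) : ∑ j, m j ≤ D := by
  have h := le_totalDegree hm
  rw [Finsupp.sum_fintype _ _ (fun _ => rfl)] at h
  exact h.trans hF

theorem eval_hom {F : MvPolynomial (Fin n) ℤ} {D : ℕ} (hF : F.totalDegree ≤ D)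
    {b0 : MvPolynomial (Option (Fin d)) ℤ} {B : Fin n → MvPolynomial (Option (Fin d)) ℤ}
    {s : Option (Fin d) → ℤ} {x : Fin n → ℤ} (h : ∀ j, eval s b0 * x j = eval s (B j)) :
    eval s (hom F D b0 B) = eval s b0 ^ D * eval x F := by
  unfold hom
  rw [map_sum, eval_eq' x F, Finset.mul_sum]
  refine Finset.sum_congr rfl fun m hm => ?_
  rw [map_mul, eval_C, eval_mon h (exp_le hF hm) ()]
  ring

theorem deg_mon {b0 : MvPolynomial (Option (Fin d)) ℤ}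
    {B : Fin n → MvPolynomial (Option (Fin d)) ℤ} {e : Fin n → ℕ} {M c : ℕ}
    (hM : ∑ j, e j ≤ M) (h0 : b0.totalDegree ≤ c) (hB : ∀ j, (B j).totalDegree ≤ c) :
    (mon b0 B e M).totalDegree ≤ c * M := by
  unfold mon
  refine (totalDegree_mul _ _).trans ?_
  have h1 : (∏ j, B j ^ e j).totalDegree ≤ c * ∑ j, e j := by
    refine (totalDegree_finsetProd _ _).trans ?_
    rw [Finset.mul_sum]
    refine Finset.sum_le_sum fun j _ => ?_
    refine (totalDegree_pow _ _).trans ?_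
    rw [mul_comm]
    exact Nat.mul_le_mul_right _ (hB j)
  have h2 : (b0 ^ (M - ∑ j, e j)).totalDegree ≤ c * (M - ∑ j, e j) := by
    refine (totalDegree_pow _ _).trans ?_
    rw [mul_comm]
    exact Nat.mul_le_mul_right _ h0
  calc (∏ j, B j ^ e j).totalDegree + (b0 ^ (M - ∑ j, e j)).totalDegree
      ≤ c * ∑ j, e j + c * (M - ∑ j, e j) := Nat.add_le_add h1 h2
    _ = c * M := by rw [← Nat.mul_add, Nat.add_sub_cancel' hM]

theorem L1_mon {b0 : MvPolynomial (Option (Fin d)) ℤ}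
    {B : Fin n → MvPolynomial (Option (Fin d)) ℤ} {e : Fin n → ℕ} {M : ℕ} {c : ℤ}
    (hM : ∑ j, e j ≤ M) (h0 : L1 b0 ≤ c) (hB : ∀ j, L1 (B j) ≤ c) :
    L1 (mon b0 B e M) ≤ c ^ M := by
  have hc : 0 ≤ c := (L1_nonneg _).trans h0
  unfold mon
  refine (L1_mul _ _).trans ?_
  have h1 : L1 (∏ j, B j ^ e j) ≤ c ^ ∑ j, e j := by
    refine (L1_prod _ _).trans ?_
    rw [← Finset.prod_pow_eq_pow_sum]
    refine Finset.prod_le_prod (fun _ _ => L1_nonneg _) fun j _ => ?_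
    exact (L1_pow _ _).trans (pow_le_pow_left₀ (L1_nonneg _) (hB j) _)
  have h2 : L1 (b0 ^ (M - ∑ j, e j)) ≤ c ^ (M - ∑ j, e j) :=
    (L1_pow _ _).trans (pow_le_pow_left₀ (L1_nonneg _) h0 _)
  calc L1 (∏ j, B j ^ e j) * L1 (b0 ^ (M - ∑ j, e j))
      ≤ c ^ (∑ j, e j) * c ^ (M - ∑ j, e j) := mul_le_mul h1 h2 (L1_nonneg _) (by positivity)
    _ = c ^ M := by rw [← pow_add, Nat.add_sub_cancel' hM]

theorem deg_hom {F : MvPolynomial (Fin n) ℤ} {D : ℕ} (hF : F.totalDegree ≤ D)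
    {b0 : MvPolynomial (Option (Fin d)) ℤ} {B : Fin n → MvPolynomial (Option (Fin d)) ℤ} {c : ℕ}
    (h0 : b0.totalDegree ≤ c) (hB : ∀ j, (B j).totalDegree ≤ c) :
    (hom F D b0 B).totalDegree ≤ c * D := by
  unfold hom
  refine totalDegree_finsetSum_le fun m hm => ?_
  refine (totalDegree_mul _ _).trans ?_
  rw [totalDegree_C, zero_add]
  exact deg_mon (exp_le hF hm) h0 hB

theorem Sz_hom {F : MvPolynomial (Fin n) ℤ} {D w wF : ℕ} (hF : F.totalDegree ≤ D)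
    (hF' : Sz wF F) {b0 : MvPolynomial (Option (Fin d)) ℤ}
    {B : Fin n → MvPolynomial (Option (Fin d)) ℤ} (h0 : Sz w b0) (hB : ∀ j, Sz w (B j)) :
    Sz (wF + w * D) (hom F D b0 B) := by
  refine ⟨(deg_hom hF h0.1 fun j => (hB j).1).trans (Nat.le_add_left _ _), ?_⟩
  unfold hom
  refine (L1_sum _ _).trans ?_
  calc ∑ m ∈ F.support, L1 (C (F.coeff m) * mon b0 B (fun j => m j) D)
      ≤ ∑ m ∈ F.support, |F.coeff m| * ((2 : ℤ) ^ w) ^ D := by
        refine Finset.sum_le_sum fun m hm => ?_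
        refine (L1_mul _ _).trans ?_
        rw [L1_C]
        exact mul_le_mul_of_nonneg_left (L1_mon (exp_le hF hm) h0.2 fun j => (hB j).2)
          (abs_nonneg _)
    _ = L1 F * ((2 : ℤ) ^ w) ^ D := by rw [L1, Finset.sum_mul]
    _ ≤ 2 ^ wF * ((2 : ℤ) ^ w) ^ D := mul_le_mul_of_nonneg_right hF'.2 (by positivity)
    _ = 2 ^ (wF + w * D) := by rw [pow_add, pow_mul]

end hom

section

variable {Y : ℕ → ℕ}

theorem Few_sum (hY : ∀ m : ℕ, ∀ᶠ ν in (Uf : Filter ℕ), m ≤ Y ν) {ι : Type*} (s : Finset ι)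
    {f : ι → ℕ → ℕ} (h : ∀ i ∈ s, Few Y (f i)) : Few Y (fun ν => ∑ i ∈ s, f i ν) := by
  classical
  induction s using Finset.induction_on with
  | empty => simpa using Few.const hY 0
  | insert a s ha ih =>
    refine (Few.add hY (h a (Finset.mem_insert_self _ _))
      (ih fun i hi => h i (Finset.mem_insert_of_mem hi))).mono
        (Filter.Eventually.of_forall fun ν => ?_)
    rw [Finset.sum_insert ha]

theorem Big_gt (hY : ∀ m : ℕ, ∀ᶠ ν in (Uf : Filter ℕ), m ≤ Y ν) {α : Type*}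
    {A : ℕ → Finset α} (h : Big Y A) (b : ℕ) : ∀ᶠ ν in (Uf : Filter ℕ), b < (A ν).card := by
  obtain ⟨m, hm⟩ := h
  filter_upwards [hm, hY (b ^ m)] with ν h1 h2
  by_contra hcon
  have h3 : (A ν).card ^ m ≤ b ^ m := Nat.pow_le_pow_left (by omega) m
  omega

/-- the homogenised family is mild -/
theorem Mild_hom (hY : ∀ m : ℕ, ∀ᶠ ν in (Uf : Filter ℕ), m ≤ Y ν) {n d : ℕ}
    {F : ℕ → MvPolynomial (Fin n) ℤ} {D : ℕ → ℕ} (hF : ∀ ν, (F ν).totalDegree ≤ D ν)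
    (hFm : Mild Y F) (hD : Few Y D) {b0 : ℕ → MvPolynomial (Option (Fin d)) ℤ}
    {B : Fin n → ℕ → MvPolynomial (Option (Fin d)) ℤ} (h0 : Mild Y b0) (hB : ∀ j, Mild Y (B j)) :
    Mild Y (fun ν => hom (F ν) (D ν) (b0 ν) (fun j => B j ν)) := by
  obtain ⟨wF, hwF, hF'⟩ := hFm.Sz hY
  obtain ⟨w0, hw0, h0'⟩ := h0.Sz hY
  choose wB hwB hB' using fun j => (hB j).Sz hY
  have hw : Few Y (fun ν => w0 ν + ∑ j, wB j ν) :=
    Few.add hY hw0 (Few_sum hY Finset.univ fun j _ => hwB j)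
  refine Mild.of_Sz (Few.add hY hwF (hw.mul hD)) ?_
  filter_upwards [hF', h0', Filter.eventually_all.2 hB'] with ν a1 a2 a3
  refine Sz_hom (hF ν) a1 (a2.mono (Nat.le_add_right _ _)) fun j => (a3 j).mono ?_
  exact (Finset.single_le_sum (f := fun j => wB j ν) (fun _ _ => Nat.zero_le _)
    (Finset.mem_univ j)).trans (Nat.le_add_left _ _)

end

/-- **Few power values.** -/
theorem pv (h1 : S_gd) (h2 : S_irr) (h3 : S_rel) (h4 : S_const) (h5 : S_van) : S_pv := by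
  classical
  intro n E ε hε
  by_contra hcon
  push Not at hcon
  have hseq := fun ν : ℕ => hcon (ν + 1) (1 / ((ν : ℝ) + 1)) (by positivity)
  choose Y0 hY1 D F hD1 hD hFd hFc T hT hc using hseq
  choose! x s z r hx hs0 hs hz hr hw hev using hT
  have hY1' : ∀ ν, (1 : ℝ) ≤ (Y0 ν : ℝ) := fun ν => by exact_mod_cast hY1 ν
  have hδ : ∀ ν : ℕ, (0 : ℝ) ≤ 1 / ((ν : ℝ) + 1) := fun ν => by positivity
  have hpow : ∀ ν, (Y0 ν : ℝ) ^ (1 / ((ν : ℝ) + 1)) ≤ (Y0 ν : ℝ) := by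
    intro ν
    calc (Y0 ν : ℝ) ^ (1 / ((ν : ℝ) + 1)) ≤ (Y0 ν : ℝ) ^ (1 : ℝ) := by
          apply Real.rpow_le_rpow_of_exponent_le (hY1' ν)
          rw [div_le_one (by positivity)]
          have : (0 : ℝ) ≤ (ν : ℝ) := Nat.cast_nonneg _
          linarith
      _ = (Y0 ν : ℝ) := Real.rpow_one _
  have hpow1 : ∀ ν, 1 ≤ (Y0 ν : ℝ) ^ (1 / ((ν : ℝ) + 1)) := fun ν =>
    Real.one_le_rpow (hY1' ν) (hδ ν)
  -- the bound for degrees and coefficients
  obtain ⟨W, hW⟩ : ∃ W : ℕ → ℕ, ∀ ν, W ν =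
    ⌊((2 : ℕ) : ℝ) * (Y0 ν : ℝ) ^ (1 / ((ν : ℝ) + 1))⌋₊ + 1 := ⟨_, fun _ => rfl⟩
  have hDW : ∀ ν, D ν ≤ W ν := by
    intro ν
    have h6 := Nat.lt_floor_add_one (((2 : ℕ) : ℝ) * (Y0 ν : ℝ) ^ (1 / ((ν : ℝ) + 1)))
    have h7 := hpow1 ν
    have h8 := hD ν
    rw [hW]
    have : ((D ν : ℕ) : ℝ) <
        ((⌊((2 : ℕ) : ℝ) * (Y0 ν : ℝ) ^ (1 / ((ν : ℝ) + 1))⌋₊ + 1 : ℕ) : ℝ) := by
      push_cast at h6 ⊢
      linarith
    exact_mod_cast this.le
  have hcW : ∀ ν m, |(F ν).coeff m| ≤ 2 ^ W ν := by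
    intro ν m
    have h6 := (hFc ν m).trans (exp_le_two_pow (by linarith [hpow1 ν]))
    rw [← hW] at h6
    exact_mod_cast h6
  -- the values
  have hval : ∀ ν, ∀ w ∈ T ν, |w| ≤ |eval (x ν w) (F ν)| := by
    intro ν w hwT
    rw [hev ν w hwT, abs_mul]
    have := Int.one_le_abs (hs0 ν w hwT)
    nlinarith [abs_nonneg w]
  have hzr : ∀ ν, ∀ w ∈ T ν, |w| = |z ν w| ^ r ν w := by
    intro ν w hwT
    conv_lhs => rw [hw ν w hwT]
    rw [abs_pow]
  have h2r : ∀ ν, ∀ w ∈ T ν, (2 : ℤ) ^ r ν w ≤ |w| := by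
    intro ν w hwT
    rw [hzr ν w hwT]
    exact pow_le_pow_left₀ (by norm_num) (hz ν w hwT) _
  have hY0 : ∀ m : ℕ, ∀ᶠ ν in (Uf : Filter ℕ), m ≤ Y0 ν := by
    intro m
    filter_upwards [ev_ge ((m + 1) ^ n * 2 ^ (2 * m + 1) * m ^ m)] with ν hν
    by_contra hcon'
    push Not at hcon'
    have k1 : 0 < (T ν).card := by
      have k2 : (1 : ℝ) ≤ (Y0 ν : ℝ) ^ ε := Real.one_le_rpow (hY1' ν) hε.le
      have k3 := lt_of_le_of_lt k2 (hc ν)
      have k4 : (0 : ℝ) < ((T ν).card : ℝ) := by linarith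
      exact_mod_cast k4
    obtain ⟨w, hwT⟩ := Finset.card_pos.1 k1
    have hDm : D ν ≤ m := by
      have k2 : (D ν : ℝ) ≤ (Y0 ν : ℝ) := (hD ν).trans (hpow ν)
      have k3 : D ν ≤ Y0 ν := by exact_mod_cast k2
      omega
    have hWm : W ν ≤ 2 * m + 1 := by
      rw [hW]
      have k2 : ((2 : ℕ) : ℝ) * (Y0 ν : ℝ) ^ (1 / ((ν : ℝ) + 1)) ≤ ((2 * Y0 ν : ℕ) : ℝ) := by
        push_cast
        linarith [hpow ν]
      have k3 := Nat.floor_le_floor k2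
      rw [Nat.floor_natCast] at k3
      omega
    have k5 : |eval (x ν w) (F ν)| ≤ ((m : ℤ) + 1) ^ n * 2 ^ (2 * m + 1) * (m : ℤ) ^ m := by
      have hm1 : 1 ≤ m := (hD1 ν).trans hDm
      refine (eval_le (b := (m : ℤ)) (by exact_mod_cast hm1) (fun j => (hx ν w hwT j).trans
        (by exact_mod_cast hcon'.le))).trans ?_
      have k6 : L1 (F ν) ≤ ((m : ℤ) + 1) ^ n * 2 ^ (2 * m + 1) := by
        have k7 := L1_le (p := F ν) (D := m) (B := 2 ^ (2 * m + 1)) ((hFd ν).trans hDm)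
          (fun q => (hcW ν q).trans (pow_le_pow_right₀ (by norm_num) hWm))
        rwa [Fintype.card_fin] at k7
      exact mul_le_mul k6 (pow_le_pow_right₀ (by exact_mod_cast hm1) ((hFd ν).trans hDm))
        (by positivity) (by positivity)
    have k8 : (2 : ℤ) ^ ν ≤ |w| := by
      refine le_trans (pow_le_pow_right₀ (by norm_num) ?_) (h2r ν w hwT)
      have := hr ν w hwT
      have h9 : (ν + 1) * 1 ≤ (ν + 1) * D ν := Nat.mul_le_mul_left _ (hD1 ν)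
      omega
    have k9 : ((ν : ℕ) : ℤ) < 2 ^ ν := by exact_mod_cast Nat.lt_two_pow_self (n := ν)
    have k10 : (((m + 1) ^ n * 2 ^ (2 * m + 1) * m ^ m : ℕ) : ℤ) ≤ (ν : ℤ) := by
      exact_mod_cast hν
    push_cast at k10
    have k11 := hval ν w hwT
    linarith
  obtain ⟨Y, hYd⟩ : ∃ Y : ℕ → ℕ, ∀ ν, Y ν = Y0 ν ^ (E + 2) := ⟨_, fun _ => rfl⟩
  have hYY : ∀ ν, Y0 ν ≤ Y ν := fun ν => by
    rw [hYd]
    exact Nat.le_self_pow (by omega) _
  have hY : ∀ m : ℕ, ∀ᶠ ν in (Uf : Filter ℕ), m ≤ Y ν := fun m =>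
    (hY0 m).mono fun ν hν => hν.trans (hYY ν)
  have hYYe : ∀ᶠ ν in (Uf : Filter ℕ), Y0 ν ≤ Y ν := Filter.Eventually.of_forall hYY
  have hbig : Big Y T := by
    refine big_of_card (ε := ε / (E + 2)) (by positivity) (hY 2) (Filter.Eventually.of_forall
      fun ν => ?_)
    rw [hYd]
    push_cast
    rw [← Real.rpow_natCast, ← Real.rpow_mul (by positivity)]
    have : ((E + 2 : ℕ) : ℝ) * (ε / ((E : ℝ) + 2)) = ε := by
      push_cast
      field_simp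
    rw [this]
    exact hc ν
  have fewW : Few Y W := by
    have k1 := (few_rpow hY0 2).mono_Y hYYe
    exact k1.mono (Filter.Eventually.of_forall fun ν => (hW ν).le)
  have fewD : Few Y D := fewW.mono (Filter.Eventually.of_forall hDW)
  have hFmild : Mild Y F := ⟨W, fewW, Filter.Eventually.of_forall fun ν =>
    ⟨(hFd ν).trans (hDW ν), hcW ν⟩⟩
  obtain ⟨w1, fewW1, hw1⟩ := hFmild.eval_bd hY (Om := T) (s := x) (C := 1)
    (Filter.Eventually.of_forall fun ν t ht i => by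
      have k1 := hx ν t ht i
      have k2 : (Y0 ν : ℤ) ≤ (Y ν : ℤ) := by exact_mod_cast hYY ν
      rw [pow_one]
      linarith)
  have hwb : ∀ᶠ ν in (Uf : Filter ℕ), ∀ w ∈ T ν, |w| ≤ 2 ^ w1 ν ∧ r ν w ≤ w1 ν := by
    filter_upwards [hw1] with ν k1 w hwT
    have k2 := (hval ν w hwT).trans (k1 w hwT)
    refine ⟨k2, ?_⟩
    exact (pow_le_pow_iff_right₀ (by norm_num : (1 : ℤ) < 2)).1 ((h2r ν w hwT).trans k2)
  -- the exponent is constant
  obtain ⟨T', t1, t2, t3⟩ := hbig.fiber r (fun ν => Finset.range (w1 ν + 1))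
    (by
      filter_upwards [hwb] with ν k1 w hwT
      exact Finset.mem_range.2 (Nat.lt_succ_of_le (k1 w hwT).2)) (by
      refine (Few.add hY fewW1 (Few.const hY 1)).mono (Filter.Eventually.of_forall fun ν => ?_)
      rw [Finset.card_range])
  obtain ⟨r1, hr1⟩ : ∃ r1 : ℕ → ℕ, ∀ᶠ ν in (Uf : Filter ℕ), (∀ w ∈ T' ν, r ν w = r1 ν) := by
    have k1 : ∀ᶠ ν in (Uf : Filter ℕ), ∃ r1 : ℕ, ∀ w ∈ T' ν, r ν w = r1 := by
      filter_upwards [t3, t2.nonempty] with ν a b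
      obtain ⟨p0, hp0⟩ := b
      exact ⟨r ν p0, fun p hp => a p hp p0 hp0⟩
    exact k1.choice
  have hr1b : ∀ᶠ ν in (Uf : Filter ℕ), (ν + 1) * D ν ≤ r1 ν ∧ r1 ν ≤ w1 ν := by
    filter_upwards [hr1, t1, t2.nonempty, hwb] with ν a b c d
    obtain ⟨p0, hp0⟩ := c
    rw [← a p0 hp0]
    exact ⟨hr ν p0 (b hp0), (d p0 (b hp0)).2⟩
  have hrν : ∀ᶠ ν in (Uf : Filter ℕ), ν + 1 ≤ r1 ν := by
    filter_upwards [hr1b] with ν a
    have h9 : (ν + 1) * 1 ≤ (ν + 1) * D ν := Nat.mul_le_mul_left _ (hD1 ν)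
    omega
  have hrinf : ∀ m : ℕ, ∀ᶠ ν in (Uf : Filter ℕ), m ≤ r1 ν := by
    intro m
    filter_upwards [hrν, ev_ge m] with ν a b
    omega
  have fewr : Few Y r1 := fewW1.mono (hr1b.mono fun ν a => a.2)
  -- the points
  obtain ⟨pt, hpt⟩ : ∃ pt : ℕ → ℤ → Fin (n + 1) → ℤ, ∀ ν w,
      (∀ j : Fin n, pt ν w j.castSucc = x ν w j + ((Y0 ν : ℤ) + 1)) ∧
      pt ν w (Fin.last n) = s ν w :=
    ⟨fun ν w => Fin.snoc (α := fun _ => ℤ) (fun j => x ν w j + ((Y0 ν : ℤ) + 1)) (s ν w),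
      fun ν w => ⟨fun j => by simp only [Fin.snoc_castSucc], by simp only [Fin.snoc_last]⟩⟩
  have hinj : ∀ᶠ ν in (Uf : Filter ℕ), Set.InjOn (pt ν) (T' ν) := by
    filter_upwards [t1] with ν c w h w' h' hpp
    have k1 : x ν w = x ν w' := by
      funext j
      have k2 := congrFun hpp j.castSucc
      rw [(hpt ν w).1, (hpt ν w').1] at k2
      linarith
    have k2 : s ν w = s ν w' := by
      have k3 := congrFun hpp (Fin.last n)
      rwa [(hpt ν w).2, (hpt ν w').2] at k3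
    have k3 := hev ν w (c h)
    have k4 := hev ν w' (c h')
    rw [k1, k2, k4] at k3
    exact (mul_left_cancel₀ (hs0 ν w' (c h')) k3).symm
  have hOm := big_image t2 pt hinj
  have hbd0 : Bdd Y (fun ν => (T' ν).image (pt ν)) := by
    filter_upwards [t1, hY0 3] with ν c hY3 t ht q
    obtain ⟨w, h, rfl⟩ := Finset.mem_image.1 ht
    have hE1 : (Y0 ν : ℤ) ^ E ≤ (Y ν : ℤ) := by
      rw [hYd]
      push_cast
      exact pow_le_pow_right₀ (by exact_mod_cast hY1 ν) (by omega)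
    have hE2 : 2 * (Y0 ν : ℤ) + 1 ≤ (Y ν : ℤ) := by
      rw [hYd]
      push_cast
      have k1 : (Y0 ν : ℤ) ^ 2 ≤ (Y0 ν : ℤ) ^ (E + 2) :=
        pow_le_pow_right₀ (by exact_mod_cast hY1 ν) (by omega)
      have k2 : (3 : ℤ) ≤ (Y0 ν : ℤ) := by exact_mod_cast hY3
      nlinarith
    refine Fin.lastCases ?_ (fun j => ?_) q
    · rw [(hpt ν w).2]
      exact ⟨hs0 ν w (c h), (hs ν w (c h)).trans hE1⟩
    · rw [(hpt ν w).1]
      have k3 := abs_le.1 (hx ν w (c h) j)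
      refine ⟨by omega, ?_⟩
      rw [abs_le]
      constructor <;> linarith [k3.1, k3.2]
  obtain ⟨Om1, hO1, hG1⟩ := Gen.ex hOm
  have hbd1 : Bdd Y Om1 := by
    filter_upwards [hbd0, hO1] with ν a b t ht
    exact a t (b ht)
  obtain ⟨G⟩ := h1 Y (n + 1) Om1 hY hG1 hbd1
  have hB1 : Big Y Om1 := hG1.1
  -- the inverse of `pt`
  obtain ⟨wt, hwt⟩ : ∃ wt : ℕ → (Fin (n + 1) → ℤ) → ℤ, ∀ᶠ ν in (Uf : Filter ℕ),
      ∀ t ∈ Om1 ν, wt ν t ∈ T' ν ∧ pt ν (wt ν t) = t := by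
    refine ⟨fun ν t => if h : ∃ w ∈ T' ν, pt ν w = t then h.choose else 0, ?_⟩
    filter_upwards [hO1] with ν a t ht
    have k1 : ∃ w ∈ T' ν, pt ν w = t := by
      obtain ⟨w, h, h'⟩ := Finset.mem_image.1 (a ht)
      exact ⟨w, h, h'⟩
    rw [dif_pos k1]
    exact k1.choose_spec
  -- the polynomials
  obtain ⟨b0, hb0⟩ : ∃ b0 : ℕ → MvPolynomial (Option (Fin G.d)) ℤ, ∀ ν,
    b0 ν = rename some (G.b0 ν) := ⟨_, fun _ => rfl⟩
  obtain ⟨B, hB⟩ : ∃ B : Fin n → ℕ → MvPolynomial (Option (Fin G.d)) ℤ, ∀ j ν,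
    B j ν = G.b j.castSucc ν - C ((Y0 ν : ℤ) + 1) * b0 ν := ⟨_, fun _ _ => rfl⟩
  obtain ⟨A, hA⟩ : ∃ A : ℕ → MvPolynomial (Option (Fin G.d)) ℤ, ∀ ν,
    A ν = b0 ν ^ (D ν - 1) * G.b (Fin.last n) ν := ⟨_, fun _ => rfl⟩
  obtain ⟨H, hH⟩ : ∃ H : ℕ → MvPolynomial (Option (Fin G.d)) ℤ, ∀ ν,
    H ν = hom (F ν) (D ν) (b0 ν) (fun j => B j ν) := ⟨_, fun _ => rfl⟩
  have hb0m : Mild Y b0 := ((PB.mild hY G.b0PB).rename hY some).congr
    (Filter.Eventually.of_forall fun ν => (hb0 ν).symm)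
  have hcm : Mild Y (fun ν => (C ((Y0 ν : ℤ) + 1) : MvPolynomial (Option (Fin G.d)) ℤ)) := by
    refine Mild.C (w := fun ν => Nat.log 2 (Y ν + 2) + 1) (few_log hY)
      (Filter.Eventually.of_forall fun ν => ?_)
    rw [abs_of_nonneg (by positivity)]
    have k1 : Y ν + 2 ≤ 2 ^ (Nat.log 2 (Y ν + 2) + 1) :=
      (Nat.lt_pow_succ_log_self (by norm_num) _).le
    have k2 : Y0 ν + 1 ≤ 2 ^ (Nat.log 2 (Y ν + 2) + 1) := by
      have := hYY ν
      omega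
    exact_mod_cast k2
  have hBm : ∀ j, Mild Y (B j) := fun j =>
    ((PB.mild hY (G.bPB j.castSucc)).sub hY (hcm.mul hY hb0m)).congr
      (Filter.Eventually.of_forall fun ν => (hB j ν).symm)
  have hAm : Mild Y A := ((hb0m.pow hY (fewD.mono (Filter.Eventually.of_forall fun ν =>
    Nat.sub_le (D ν) 1))).mul hY (PB.mild hY (G.bPB (Fin.last n)))).congr
      (Filter.Eventually.of_forall fun ν => (hA ν).symm)
  have hHm : Mild Y H := (Mild_hom hY hFd hFmild fewD hb0m hBm).congr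
    (Filter.Eventually.of_forall fun ν => (hH ν).symm)
  -- the values of the polynomials
  have heb0 : ∀ ν t, eval (G.sp ν t) (b0 ν) = eval (fun b => t (G.ι b)) (G.b0 ν) := by
    intro ν t
    rw [hb0]
    exact G.eval_b0 ν t
  have heB : ∀ᶠ ν in (Uf : Filter ℕ), ∀ t ∈ Om1 ν, ∀ j,
      eval (G.sp ν t) (b0 ν) * x ν (wt ν t) j = eval (G.sp ν t) (B j ν) := by
    filter_upwards [G.ev_b, hwt] with ν a b t ht j
    have k1 : eval (fun b => t (G.ι b)) (G.b0 ν) * t j.castSucc =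
      eval (G.sp ν t) (G.b j.castSucc ν) := a t ht j.castSucc
    have k2 : t j.castSucc = x ν (wt ν t) j + ((Y0 ν : ℤ) + 1) := by
      conv_lhs => rw [← (b t ht).2]
      exact (hpt ν (wt ν t)).1 j
    rw [hB, map_sub, map_mul, eval_C, ← k1, heb0, k2]
    ring
  have heA : ∀ᶠ ν in (Uf : Filter ℕ), ∀ t ∈ Om1 ν,
      eval (G.sp ν t) (A ν) = eval (G.sp ν t) (b0 ν) ^ D ν * s ν (wt ν t) := by
    filter_upwards [G.ev_b, hwt] with ν a b t ht
    have k1 : eval (fun b => t (G.ι b)) (G.b0 ν) * t (Fin.last n) =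
      eval (G.sp ν t) (G.b (Fin.last n) ν) := a t ht (Fin.last n)
    have k2 : t (Fin.last n) = s ν (wt ν t) := by
      conv_lhs => rw [← (b t ht).2]
      exact (hpt ν (wt ν t)).2
    rw [hA, map_mul, map_pow, ← k1, heb0, k2]
    obtain ⟨k, hk⟩ : ∃ k, D ν = k + 1 := ⟨D ν - 1, by have := hD1 ν; omega⟩
    rw [hk, Nat.add_sub_cancel]
    ring
  have heH : ∀ᶠ ν in (Uf : Filter ℕ), ∀ t ∈ Om1 ν,
      eval (G.sp ν t) (H ν) = eval (G.sp ν t) (b0 ν) ^ D ν * (s ν (wt ν t) * wt ν t) := by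
    filter_upwards [heB, hwt, t1] with ν a b c t ht
    rw [hH, eval_hom (hFd ν) (a t ht), hev ν (wt ν t) (c (b t ht).1)]
  have hAs : ¬ Big Y (fun ν => (Om1 ν).filter fun t => eval (G.sp ν t) (A ν) = 0) := by
    intro hcon'
    refine G.small G.b0 G.b0PB G.b0ne (hcon'.mono ?_)
    filter_upwards [heA, hwt, t1] with ν a b c t ht
    obtain ⟨ht1, ht2⟩ := Finset.mem_filter.1 ht
    refine Finset.mem_filter.2 ⟨ht1, ?_⟩
    rw [a t ht1] at ht2
    rcases mul_eq_zero.1 ht2 with k1 | k1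
    · rw [← heb0]
      exact pow_eq_zero_iff (by have := hD1 ν; omega) |>.1 k1
    · exact absurd k1 (hs0 ν _ (c (b t ht1).1))
  have hzz : ∀ᶠ ν in (Uf : Filter ℕ), ∀ t ∈ Om1 ν, z ν (wt ν t) ≠ 0 ∧
      |z ν (wt ν t)| ≤ 2 ^ w1 ν ∧
      eval (G.sp ν t) (A ν) * z ν (wt ν t) ^ r1 ν = eval (G.sp ν t) (H ν) := by
    filter_upwards [heA, heH, hwt, t1, hr1, hwb, hrν] with ν a b c d e f g t ht
    obtain ⟨c1, c2⟩ := c t ht
    have c3 := d c1
    have k1 := hz ν _ c3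
    refine ⟨?_, ?_, ?_⟩
    · intro h0
      rw [h0] at k1
      norm_num at k1
    · refine le_trans ?_ (f _ c3).1
      rw [hzr ν _ c3, e _ c1]
      exact le_self_pow₀ (by linarith) (by omega)
    · have k2 := hw ν _ c3
      rw [e _ c1] at k2
      rw [a t ht, b t ht, mul_assoc, ← k2]
  obtain ⟨K, hK⟩ := h3 Y (n + 1) Om1 hY hB1 hbd1 G A H hAm hHm hAs r1 w1
    (fun ν t => z ν (wt ν t)) hrinf fewr fewW1 hzz
  -- bounds for the degrees
  obtain ⟨c1, hc1⟩ := G.hPB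
  obtain ⟨c2, hc2⟩ := G.b0PB
  have hc3 : ∃ c3, ∀ᶠ ν in (Uf : Filter ℕ), ∀ j, (G.b j ν).totalDegree ≤ c3 := by
    choose c hc using fun j => G.bPB j
    refine ⟨∑ j, c j, ?_⟩
    filter_upwards [Filter.eventually_all.2 hc] with ν h j
    exact (h j).1.trans (Finset.single_le_sum (f := c) (fun _ _ => Nat.zero_le _)
      (Finset.mem_univ j))
  obtain ⟨c3, hc3⟩ := hc3
  obtain ⟨R₀, Bd, hRB⟩ := h4 G.d (c1 + c2 + c3) K
  obtain ⟨Om2, hO2, hB2, hgood⟩ := G.good hY h5 (Filter.Eventually.of_forall fun _ => subset_rfl)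
    hB1
  obtain ⟨ν, ⟨κ, hκ1, hκ2, g₁, g₂, hg1, hg2, hg3⟩, e2, e3, e4, e5, e6, e7, e8, e9, e10, e11,
      e12, e13, e14⟩ := (hK.and ((h2 Y (n + 1) Om1 hY hB1 hbd1 G).and (hc1.and (hc2.and (hc3.and
    (hgood.and ((Big_gt hY hB2 Bd).and (hO2.and (heA.and (heH.and (hwt.and (t1.and
      (hr1b.and (ev_ge R₀)))))))))))))).exists
  have hb0d : (b0 ν).totalDegree ≤ c2 := by
    rw [hb0]
    exact (totalDegree_rename_le _ _).trans e4.1
  have hBd : ∀ j, (B j ν).totalDegree ≤ c1 + c2 + c3 := by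
    intro j
    rw [hB]
    refine (totalDegree_sub _ _).trans (max_le ((e5 _).trans (by omega)) ?_)
    refine (totalDegree_mul _ _).trans ?_
    rw [totalDegree_C, zero_add]
    exact hb0d.trans (by omega)
  have hAd : (A ν).totalDegree ≤ (c1 + c2 + c3) * D ν := by
    rw [hA]
    refine (totalDegree_mul _ _).trans ?_
    have k1 : (b0 ν ^ (D ν - 1)).totalDegree ≤ (D ν - 1) * c2 :=
      (totalDegree_pow _ _).trans (Nat.mul_le_mul_left _ hb0d)
    have k2 := e5 (Fin.last n)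
    obtain ⟨k, hk⟩ : ∃ k, D ν = k + 1 := ⟨D ν - 1, by have := hD1 ν; omega⟩
    rw [hk, Nat.add_sub_cancel] at k1 ⊢
    nlinarith [Nat.zero_le (c1 * k), Nat.zero_le (c3 * k)]
  have hHd : (H ν).totalDegree ≤ (c1 + c2 + c3) * D ν := by
    rw [hH]
    exact deg_hom (hFd ν) (hb0d.trans (by omega)) hBd
  -- the values at the good points
  have hβ : ∀ t ∈ Om2 ν, eval (G.sp ν t) (b0 ν) ≠ 0 := by
    intro t ht
    rw [heb0]
    exact (e6 t ht).1
  have hsne : ∀ t ∈ Om2 ν, eval (G.sp ν t) (b0 ν) ^ D ν * s ν (wt ν t) ≠ 0 := fun t ht =>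
    mul_ne_zero (pow_ne_zero _ (hβ t ht)) (hs0 ν _ (e12 (e11 t (e8 ht)).1))
  obtain ⟨t0, ht0⟩ := Finset.card_pos.1 (lt_of_le_of_lt (Nat.zero_le _) e7)
  have hnA : ¬ InP (G.h ν) (A ν) := by
    intro h0
    have k1 := (e6 t0 ht0).2 _ h0
    rw [e9 t0 (e8 ht0)] at k1
    exact hsne t0 ht0 k1
  have hnH : ¬ InP (G.h ν) (H ν) := by
    intro h0
    have k1 := (e6 t0 ht0).2 _ h0
    rw [e10 t0 (e8 ht0), ← mul_assoc] at k1
    rcases mul_eq_zero.1 k1 with k2 | k2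
    · exact hsne t0 ht0 k2
    · have k3 := h2r ν _ (e12 (e11 t0 (e8 ht0)).1)
      rw [k2, abs_zero] at k3
      have k4 : (0 : ℤ) < 2 ^ r ν 0 := by positivity
      omega
  obtain ⟨p, hp0, hpI⟩ := hRB (G.h ν) e2 (e3.1.trans (by omega)) (D ν) (A ν) (H ν) (hD1 ν) hAd
    hHd hnA hnH κ (r1 ν) g₁ g₂ hκ1 hκ2
    ((Nat.mul_le_mul_right _ (by omega : R₀ ≤ ν + 1)).trans e13.1) hg1 hg2 hg3
  have hroot : ∀ t ∈ Om2 ν, ∑ j : Fin (Bd + 1), p j * wt ν t ^ (j : ℕ) = 0 := by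
    intro t ht
    have k1 := (e6 t ht).2 _ hpI
    rw [map_sum] at k1
    have k2 : ∑ j : Fin (Bd + 1), eval (G.sp ν t) (C (p j) * (H ν ^ (j : ℕ) * A ν ^ (Bd - j))) =
        (eval (G.sp ν t) (b0 ν) ^ D ν * s ν (wt ν t)) ^ Bd *
          ∑ j : Fin (Bd + 1), p j * wt ν t ^ (j : ℕ) := by
      rw [Finset.mul_sum]
      refine Finset.sum_congr rfl fun j _ => ?_
      rw [map_mul, map_mul, map_pow, map_pow, eval_C, e9 t (e8 ht), e10 t (e8 ht)]
      have k3 : (eval (G.sp ν t) (b0 ν) ^ D ν * s ν (wt ν t)) ^ Bd =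
          (eval (G.sp ν t) (b0 ν) ^ D ν * s ν (wt ν t)) ^ (j : ℕ) *
          (eval (G.sp ν t) (b0 ν) ^ D ν * s ν (wt ν t)) ^ (Bd - j) := by
        rw [← pow_add]
        congr 1
        have := j.2
        omega
      rw [k3, ← mul_assoc (eval (G.sp ν t) (b0 ν) ^ D ν), mul_pow _ (wt ν t)]
      ring
    rw [k2] at k1
    exact (mul_eq_zero.1 k1).resolve_left (pow_ne_zero _ (hsne t ht))
  set P : Polynomial ℤ := ∑ j : Fin (Bd + 1), Polynomial.C (p j) * Polynomial.X ^ (j : ℕ) with hP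
  have hPd : P.natDegree ≤ Bd := by
    refine Polynomial.natDegree_sum_le_of_forall_le _ _ fun j _ => ?_
    refine (Polynomial.natDegree_C_mul_X_pow_le _ _).trans ?_
    have := j.2
    omega
  have hcard : ((Om2 ν).image (wt ν)).card = (Om2 ν).card := by
    refine Finset.card_image_of_injOn fun t ht t' ht' htt => ?_
    rw [← (e11 t (e8 ht)).2, ← (e11 t' (e8 ht')).2, htt]
  have hP0 : P = 0 := by
    refine Polynomial.eq_zero_of_natDegree_lt_card_of_eval_eq_zero' P ((Om2 ν).image (wt ν))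
      ?_ ?_
    · intro w hwI
      obtain ⟨t, ht, rfl⟩ := Finset.mem_image.1 hwI
      rw [hP, Polynomial.eval_finset_sum]
      refine (Finset.sum_congr rfl fun j _ => ?_).trans (hroot t ht)
      rw [Polynomial.eval_mul, Polynomial.eval_C, Polynomial.eval_pow, Polynomial.eval_X]
    · rw [hcard]
      exact lt_of_le_of_lt hPd e7
  apply hp0
  funext j
  have k1 := congrArg (fun q : Polynomial ℤ => q.coeff j) hP0
  simp only [hP, Polynomial.finset_sum_coeff, Polynomial.coeff_C_mul_X_pow,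
    Polynomial.coeff_zero] at k1
  rw [Finset.sum_eq_single j] at k1
  · simpa using k1
  · intro b _ hb
    rw [if_neg]
    intro h
    exact hb (Fin.ext h.symm)
  · simp

end Pool.Agent.N152.HB
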